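import Pool.Agent.H.MP_4cde56_an.Main

namespace Pool.Agent.Results.MP_4cde56_an.NotCortex

open Pool.Agent.H.Cortex

theorem result : ∃ (G : Type) (_ : AddCommGroup G) (_ : TopologicalSpace G)
    (_ : IsTopologicalAddGroup G) (_ : CompactSpace G) (_ : T2Space G)
    (_ : SecondCountableTopology G) (φ : (C(G, ℂ) →L[ℂ] ℂ) →ₗ[ℂ] ℂ),
    φ ≠ 0 ∧ (∀ μ ν, φ (conv μ ν) = φ μ * φ ν) ∧
    ∃ μ₁ μ₂ : C(G, ℂ) →L[ℂ] ℂ, φ μ₁ = 0 ∧ φ μ₂ = 0 ∧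
      ∀ ν : C(G, ℂ) →L[ℂ] ℂ, ‖ν‖ = 1 → 1 / 4 ≤ ‖conv μ₁ ν‖ + ‖conv μ₂ ν‖ := by
  obtain ⟨φ, μ₁, μ₂, h1, h2, h3⟩ := main
  refine ⟨GG, inferInstance, inferInstance, inferInstance, inferInstance, inferInstance,
    inferInstance, φ.toLinearMap, fun h => ?_, fun μ ν => map_mul φ (MA.mk μ) (MA.mk ν),
    μ₁, μ₂, h1, h2, fun ν hν => h3 (MA.mk ν) hν⟩
  have : φ 1 = 0 := congrArg (fun ψ : MA GG →ₗ[ℂ] ℂ => ψ 1) h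
  simp at this

end Pool.Agent.Results.MP_4cde56_an.NotCortex
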